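import Pool.Agent.Lib.MP_ff748e_nt_FE.Core

set_option autoImplicit false

namespace Pool.Agent.Results.MP_ff748e_nt.CountComparison

open Pool.Agent.Results.MP_ff748e_nt.Reduction (Practical a)

/-- Up to any `x` the number of exceptions to Q1 lies between the number of odd multiply perfect
numbers `B > 1` and `2 [log₂ x]` times this number. -/
theorem result :
    ∀ x : ℕ,
      {B : ℕ | 1 < B ∧ B ≤ x ∧ Odd B ∧ B ∣ ArithmeticFunction.sigma 1 B}.ncard ≤
        {n : ℕ | 0 < n ∧ n ≤ x ∧ Practical (a n) ∧ ¬ Practical n}.ncard ∧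
      {n : ℕ | 0 < n ∧ n ≤ x ∧ Practical (a n) ∧ ¬ Practical n}.ncard ≤
        2 * Nat.log 2 x *
          {B : ℕ | 1 < B ∧ B ≤ x ∧ Odd B ∧ B ∣ ArithmeticFunction.sigma 1 B}.ncard :=
  fun x => ⟨Pool.Agent.Lib.MP_ff748e_nt_FE.lower x, Pool.Agent.Lib.MP_ff748e_nt_FE.upper x⟩

end Pool.Agent.Results.MP_ff748e_nt.CountComparison
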