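import Pool.Agent.Lib.MP_ff748e_nt_FE.Core

set_option autoImplicit false

namespace Pool.Agent.Results.MP_ff748e_nt.FewExceptions

open Pool.Agent.Results.MP_ff748e_nt.Reduction (Practical a)

/-- For large `x` there are at most `x ^ (70 / log log x)` exceptions to Q1 up to `x`, an exception
being an integer `n ≥ 1` that is not practical although `a(n) = n / gcd(n, σ(n))` is practical. -/
theorem result :
    ∃ x₀ : ℕ, ∀ x : ℕ, x₀ ≤ x →
      (({n : ℕ | 0 < n ∧ n ≤ x ∧ Practical (a n) ∧ ¬ Practical n}.ncard : ℕ) : ℝ) ≤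
        (x : ℝ) ^ (70 / Real.log (Real.log x)) :=
  Pool.Agent.Lib.MP_ff748e_nt_FE.few

end Pool.Agent.Results.MP_ff748e_nt.FewExceptions
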