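import Pool.Agent.Lib.MP_ff748e_nt_FE.Core

set_option autoImplicit false

namespace Pool.Agent.Results.MP_ff748e_nt.FiniteOmega

open Pool.Agent.Results.MP_ff748e_nt.Reduction (Practical a)

/-- For every `k` there are only finitely many exceptions to Q1 with at most `k` distinct prime
factors, an exception being an integer `n ≥ 1` that is not practical although
`a(n) = n / gcd(n, σ(n))` is practical. -/
theorem result :
    ∀ k : ℕ, {n : ℕ | 0 < n ∧ n.primeFactors.card ≤ k ∧ Practical (a n) ∧ ¬ Practical n}.Finite :=
  Pool.Agent.Lib.MP_ff748e_nt_FE.finite_omega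

end Pool.Agent.Results.MP_ff748e_nt.FiniteOmega
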