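import Mathlib

set_option autoImplicit false

namespace Pool.Agent.Results.MP_ff748e_nt.Reduction

open Finset ArithmeticFunction

/-- A positive integer `m` is practical if every integer `k` with `1 ≤ k ≤ σ(m)` is a sum of
distinct positive divisors of `m`. -/
def Practical (m : ℕ) : Prop :=
  0 < m ∧ ∀ k : ℕ, 1 ≤ k → k ≤ sigma 1 m → ∃ S : Finset ℕ, S ⊆ m.divisors ∧ ∑ d ∈ S, d = k

/-- `a(n) = n / gcd(n, σ(n))`, the denominator of `σ(n)/n` in lowest terms. -/
def a (n : ℕ) : ℕ := n / Nat.gcd n (sigma 1 n)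

lemma sigma_eq (n : ℕ) : sigma 1 n = ∑ d ∈ n.divisors, d := by
  simp [sigma_apply]

lemma le_sigma {n : ℕ} (hn : 0 < n) : n ≤ sigma 1 n := by
  rw [sigma_eq]
  exact Finset.single_le_sum (f := fun d => d) (fun _ _ => Nat.zero_le _)
    (Nat.mem_divisors_self n hn.ne')

lemma sigma_mono_dvd {m n : ℕ} (hn : 0 < n) (h : m ∣ n) : sigma 1 m ≤ sigma 1 n := by
  rw [sigma_eq, sigma_eq]
  exact Finset.sum_le_sum_of_subset (Nat.divisors_subset_of_dvd hn.ne' h)

lemma practical_one : Practical 1 := by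
  refine ⟨one_pos, fun k h1 h2 => ⟨{1}, by simp, ?_⟩⟩
  have : sigma 1 1 = 1 := by simp
  rw [this] at h2
  simp; omega

/-- A gap above `σ(A) + 1` destroys practicality. -/
lemma not_practical_of_gap {A B : ℕ} (hA : 0 < A) (hB : 1 < B)
    (h : ∀ p : ℕ, p.Prime → p ∣ B → sigma 1 A + 1 < p) : ¬ Practical (A * B) := by
  rintro ⟨hpos, hP⟩
  obtain ⟨q, hq, hqB⟩ := Nat.exists_prime_and_dvd hB.ne'
  have hqk := h q hq hqB
  have hBpos : 0 < B := by omega
  have hqn : q ≤ A * B := Nat.le_of_dvd hpos (Dvd.dvd.mul_left hqB A)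
  have hle : sigma 1 A + 1 ≤ sigma 1 (A * B) := by
    have := le_sigma hpos
    omega
  obtain ⟨S, hS, hsum⟩ := hP (sigma 1 A + 1) (by omega) hle
  have hSA : S ⊆ A.divisors := by
    intro d hd
    have hdn : d ∣ A * B := (Nat.mem_divisors.mp (hS hd)).1
    have hdk : d ≤ sigma 1 A + 1 := by
      rw [← hsum]
      exact Finset.single_le_sum (f := fun d => d) (fun _ _ => Nat.zero_le _) hd
    have hcop : Nat.Coprime d B := by
      rw [Nat.coprime_iff_gcd_eq_one]
      by_contra hne
      obtain ⟨r, hr, hrd⟩ := Nat.exists_prime_and_dvd hne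
      have h1 : r ∣ d := hrd.trans (Nat.gcd_dvd_left _ _)
      have h2 : r ∣ B := hrd.trans (Nat.gcd_dvd_right _ _)
      have h3 := h r hr h2
      have hd0 : 0 < d := by
        rcases Nat.eq_zero_or_pos d with h0 | h0
        · subst h0
          rw [Nat.zero_dvd] at hdn
          omega
        · exact h0
      have h4 : r ≤ d := Nat.le_of_dvd hd0 h1
      omega
    have : d ∣ A := hcop.dvd_of_dvd_mul_right hdn
    exact Nat.mem_divisors.mpr ⟨this, hA.ne'⟩
  have : ∑ d ∈ S, d ≤ sigma 1 A := by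
    rw [sigma_eq]
    exact Finset.sum_le_sum_of_subset hSA
  omega

lemma sigma_mul_pow_succ {m p : ℕ} (hp : p.Prime) (hm : ¬ p ∣ m) (e : ℕ) :
    sigma 1 (m * p ^ (e + 1)) = sigma 1 (m * p ^ e) + p ^ (e + 1) * sigma 1 m := by
  have hc : ∀ j, Nat.Coprime m (p ^ j) := fun j =>
    Nat.Coprime.pow_right j (Nat.Coprime.symm ((Nat.Prime.coprime_iff_not_dvd hp).mpr hm))
  rw [isMultiplicative_sigma.map_mul_of_coprime (hc _),
    isMultiplicative_sigma.map_mul_of_coprime (hc _)]
  have hs : ∀ j, sigma 1 (p ^ j) = ∑ i ∈ range (j + 1), p ^ i := by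
    intro j
    rw [sigma_eq, Nat.sum_divisors_prime_pow hp]
  rw [hs, hs, Finset.sum_range_succ (fun i => p ^ i) (e + 1)]
  ring

lemma sigma_mul_pow_ge {m p : ℕ} (hp : p.Prime) (hm : ¬ p ∣ m) (hle : p ≤ sigma 1 m + 1)
    (e : ℕ) : p ^ (e + 1) ≤ sigma 1 (m * p ^ e) + 1 := by
  induction e with
  | zero => simpa using hle
  | succ e ih =>
    rw [sigma_mul_pow_succ hp hm]
    have h1 : p ^ (e + 1 + 1) = p ^ (e + 1) * p := by ring
    rw [h1]
    have h2 : p ^ (e + 1) * p ≤ p ^ (e + 1) * (sigma 1 m + 1) := Nat.mul_le_mul_left _ hle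
    have h3 : p ^ (e + 1) * (sigma 1 m + 1) = p ^ (e + 1) * sigma 1 m + p ^ (e + 1) := by ring
    omega

/-- Sufficiency step of the Stewart / Sierpinski criterion. -/
lemma practical_mul_pow {m p : ℕ} (hP : Practical m) (hp : p.Prime) (hm : ¬ p ∣ m)
    (hle : p ≤ sigma 1 m + 1) (e : ℕ) : Practical (m * p ^ e) := by
  have hmpos : 0 < m := hP.1
  have hppos : 0 < p := hp.pos
  induction e with
  | zero => simpa using hP
  | succ e ih =>
    refine ⟨by positivity, fun k hk1 hk2 => ?_⟩
    have hge := sigma_mul_pow_ge hp hm hle e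
    rw [sigma_mul_pow_succ hp hm] at hk2
    set s := sigma 1 (m * p ^ e) with hs
    set t := sigma 1 m with ht
    set P := p ^ (e + 1) with hPdef
    have hPpos : 0 < P := by positivity
    -- choose `b` with `P * b ≤ k ≤ P * b + s`, `b ≤ t`
    obtain ⟨b, hb, hb1, hb2⟩ : ∃ b, b ≤ t ∧ P * b ≤ k ∧ k ≤ P * b + s := by
      by_cases hcase : k / P ≤ t
      · refine ⟨k / P, hcase, Nat.mul_div_le k P, ?_⟩
        have h1 := Nat.div_add_mod k P
        have h2 := Nat.mod_lt k hPpos
        omega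
      · refine ⟨t, le_rfl, ?_, by omega⟩
        push Not at hcase
        calc P * t ≤ P * (k / P) := Nat.mul_le_mul_left _ hcase.le
          _ ≤ k := Nat.mul_div_le k P
    -- representation of `b` by divisors of `m`
    obtain ⟨T, hT, hTsum⟩ : ∃ T : Finset ℕ, T ⊆ m.divisors ∧ ∑ d ∈ T, d = b := by
      rcases Nat.eq_zero_or_pos b with h0 | h0
      · exact ⟨∅, by simp, by simp [h0]⟩
      · exact hP.2 b h0 hb
    obtain ⟨U, hU, hUsum⟩ : ∃ U : Finset ℕ, U ⊆ (m * p ^ e).divisors ∧
        ∑ d ∈ U, d = k - P * b := by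
      rcases Nat.eq_zero_or_pos (k - P * b) with h0 | h0
      · exact ⟨∅, by simp, by simp [h0]⟩
      · exact ih.2 _ h0 (by omega)
    have hdisj : Disjoint U (T.image (fun d => P * d)) := by
      rw [Finset.disjoint_left]
      intro x hxU hxT
      obtain ⟨d, hd, rfl⟩ := Finset.mem_image.mp hxT
      have h1 : P * d ∣ m * p ^ e := (Nat.mem_divisors.mp (hU hxU)).1
      have h2 : P ∣ m * p ^ e := (Dvd.intro _ rfl).trans h1
      rw [hPdef, pow_succ, mul_comm (p ^ e) p] at h2
      have h3 : p ∣ m := Nat.dvd_of_mul_dvd_mul_right (by positivity) h2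
      exact hm h3
    refine ⟨U ∪ T.image (fun d => P * d), ?_, ?_⟩
    · intro x hx
      rcases Finset.mem_union.mp hx with hx | hx
      · have h1 := Nat.mem_divisors.mp (hU hx)
        refine Nat.mem_divisors.mpr ⟨h1.1.trans ?_, by positivity⟩
        exact Nat.mul_dvd_mul_left m (pow_dvd_pow p (Nat.le_succ e))
      · obtain ⟨d, hd, rfl⟩ := Finset.mem_image.mp hx
        have h1 := (Nat.mem_divisors.mp (hT hd)).1
        refine Nat.mem_divisors.mpr ⟨?_, by positivity⟩
        rw [mul_comm m]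
        exact Nat.mul_dvd_mul_left _ h1
    · rw [Finset.sum_union hdisj, hUsum, Finset.sum_image, ← Finset.mul_sum, hTsum]
      · omega
      · intro x _ y _ hxy
        exact Nat.eq_of_mul_eq_mul_left hPpos hxy

/-- Every positive integer is practical or has a first gap. -/
lemma practical_or_gap (n : ℕ) (hn : 0 < n) :
    Practical n ∨ ∃ A B : ℕ, n = A * B ∧ Practical A ∧ 1 < B ∧
      ∀ p : ℕ, p.Prime → p ∣ B → sigma 1 A + 1 < p := by
  induction n using Nat.strong_induction_on with
  | _ n ih =>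
    rcases Nat.lt_or_ge 1 n with h1 | h1
    · -- largest prime factor
      have hne : n.primeFactors.Nonempty := Nat.nonempty_primeFactors.mpr h1
      set p := n.primeFactors.max' hne with hpdef
      have hpmem : p ∈ n.primeFactors := Finset.max'_mem _ _
      have hp : p.Prime := Nat.prime_of_mem_primeFactors hpmem
      have hpn : p ∣ n := Nat.dvd_of_mem_primeFactors hpmem
      have hmax : ∀ r : ℕ, r.Prime → r ∣ n → r ≤ p := fun r hr hrn =>
        Finset.le_max' _ _ (Nat.mem_primeFactors.mpr ⟨hr, hrn, hn.ne'⟩)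
      set e := n.factorization p with he
      set m := n / p ^ e with hm
      have hnm : m * p ^ e = n := Nat.div_mul_cancel (Nat.ordProj_dvd n p)
      have hmp : ¬ p ∣ m := Nat.not_dvd_ordCompl hp hn.ne'
      have hepos : 0 < e := hp.factorization_pos_of_dvd hn.ne' hpn
      have hmpos : 0 < m := by
        rcases Nat.eq_zero_or_pos m with h0 | h0
        · rw [h0] at hnm; omega
        · exact h0
      have hmlt : m < n := by
        rw [← hnm]
        have : 1 < p ^ e := Nat.one_lt_pow hepos.ne' hp.one_lt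
        nlinarith
      rcases ih m hmlt hmpos with hPm | ⟨A, B, hAB, hPA, hB, hgap⟩
      · by_cases hle : p ≤ sigma 1 m + 1
        · left
          rw [← hnm]
          exact practical_mul_pow hPm hp hmp hle e
        · right
          push Not at hle
          refine ⟨m, p ^ e, hnm.symm, hPm, Nat.one_lt_pow hepos.ne' hp.one_lt, ?_⟩
          intro r hr hrd
          have : r ∣ p := hr.dvd_of_dvd_pow hrd
          rw [(Nat.prime_dvd_prime_iff_eq hr hp).mp this]
          exact hle
      · right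
        refine ⟨A, B * p ^ e, ?_, hPA, ?_, ?_⟩
        · rw [← mul_assoc, ← hAB, hnm]
        · have : 0 < p ^ e := pow_pos hp.pos e
          nlinarith
        · intro r hr hrd
          rcases (Nat.Prime.dvd_mul hr).mp hrd with h | h
          · exact hgap r hr h
          · have h2 : r ∣ p := hr.dvd_of_dvd_pow h
            rw [(Nat.prime_dvd_prime_iff_eq hr hp).mp h2]
            obtain ⟨t, ht, htB⟩ := Nat.exists_prime_and_dvd hB.ne'
            have h3 := hgap t ht htB
            have h4 : t ≤ p := hmax t ht (by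
              rw [← hnm, hAB]
              exact Dvd.dvd.mul_right (Dvd.dvd.mul_left htB A) _)
            omega
    · left
      have : n = 1 := by omega
      rw [this]
      exact practical_one

lemma coprime_of_gap {A B : ℕ} (hA : 0 < A)
    (h : ∀ p : ℕ, p.Prime → p ∣ B → sigma 1 A + 1 < p) : Nat.Coprime A B := by
  rw [Nat.coprime_iff_gcd_eq_one]
  by_contra hne
  obtain ⟨r, hr, hrd⟩ := Nat.exists_prime_and_dvd hne
  have h1 : r ∣ A := hrd.trans (Nat.gcd_dvd_left _ _)
  have h2 : r ∣ B := hrd.trans (Nat.gcd_dvd_right _ _)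
  have h3 := h r hr h2
  have h4 : r ≤ A := Nat.le_of_dvd hA h1
  have h5 := le_sigma hA
  omega

lemma coprime_sigma_of_gap {A B : ℕ} (hA : 0 < A)
    (h : ∀ p : ℕ, p.Prime → p ∣ B → sigma 1 A + 1 < p) : Nat.Coprime B (sigma 1 A) := by
  rw [Nat.coprime_iff_gcd_eq_one]
  by_contra hne
  obtain ⟨r, hr, hrd⟩ := Nat.exists_prime_and_dvd hne
  have h1 : r ∣ sigma 1 A := hrd.trans (Nat.gcd_dvd_right _ _)
  have h2 : r ∣ B := hrd.trans (Nat.gcd_dvd_left _ _)
  have h3 := h r hr h2
  have h5 := le_sigma hA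
  have h4 : r ≤ sigma 1 A := Nat.le_of_dvd (by omega) h1
  omega

lemma odd_of_gap {A B : ℕ} (hA : 0 < A)
    (h : ∀ p : ℕ, p.Prime → p ∣ B → sigma 1 A + 1 < p) : Odd B := by
  rw [← Nat.not_even_iff_odd]
  intro hev
  have h1 := h 2 Nat.prime_two hev.two_dvd
  have h2 := le_sigma hA
  omega

/-- The value of `a` at `A * B` when `B` is multiply perfect with only large prime factors. -/
lemma a_mul {A B : ℕ} (hB : 0 < B) (hcop : Nat.Coprime A B)
    (hdvd : B ∣ sigma 1 B) :
    a (A * B) = A / Nat.gcd A (sigma 1 A * sigma 1 B) := by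
  unfold a
  rw [isMultiplicative_sigma.map_mul_of_coprime hcop]
  set N := sigma 1 A * sigma 1 B with hN
  have h1 : Nat.gcd (A * B) N = Nat.gcd A N * Nat.gcd B N := Nat.Coprime.gcd_mul N hcop |> fun h => by
    rw [Nat.gcd_comm, h, Nat.gcd_comm N A, Nat.gcd_comm N B]
  have h2 : Nat.gcd B N = B := Nat.gcd_eq_left (hdvd.trans (Dvd.intro_left _ rfl))
  rw [h1, h2, Nat.mul_div_mul_right _ _ hB]

/-- Characterisation of all counterexamples. -/
theorem counterexample_iff (n : ℕ) (hn : 0 < n) :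
    (Practical (a n) ∧ ¬ Practical n) ↔
      ∃ A B : ℕ, n = A * B ∧ 1 < B ∧ Odd B ∧ B ∣ sigma 1 B ∧
        (∀ p : ℕ, p.Prime → p ∣ B → sigma 1 A + 1 < p) ∧
        Practical A ∧ Practical (A / Nat.gcd A (sigma 1 A * sigma 1 B)) := by
  constructor
  · rintro ⟨ha, hnP⟩
    rcases practical_or_gap n hn with h | ⟨A, B, hAB, hPA, hB, hgap⟩
    · exact absurd h hnP
    have hApos : 0 < A := hPA.1
    have hBpos : 0 < B := by omega
    have hcop := coprime_of_gap hApos hgap
    set g := Nat.gcd n (sigma 1 n) with hg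
    have hgdvd : g ∣ n := Nat.gcd_dvd_left _ _
    have hang : a n * g = n := Nat.div_mul_cancel hgdvd
    -- `a n` is coprime to `B`
    have hcopa : Nat.Coprime (a n) B := by
      by_contra hne
      have hadvd : a n ∣ A * B := by rw [← hAB]; exact Dvd.intro _ hang
      -- split `a n = a₁ * a₂`
      obtain ⟨a₁, a₂, h1, h2, h12⟩ := exists_dvd_and_dvd_of_dvd_mul hadvd
      have ha₂ : a₂ ≠ 1 := by
        intro h
        rw [h, mul_one] at h12
        apply hne
        rw [h12]
        exact Nat.Coprime.coprime_dvd_left h1 hcop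
      have ha₁pos : 0 < a₁ := Nat.pos_of_dvd_of_pos h1 hApos
      have ha₂pos : 0 < a₂ := Nat.pos_of_dvd_of_pos h2 hBpos
      refine not_practical_of_gap (A := a₁) (B := a₂) ha₁pos (by omega) ?_ (h12 ▸ ha)
      intro p hp hpa
      have h3 := hgap p hp (hpa.trans h2)
      have h4 := sigma_mono_dvd hApos h1
      omega
    have hBg : B ∣ g := by
      have : B ∣ a n * g := by rw [hang, hAB]; exact Dvd.intro_left _ rfl
      exact (Nat.Coprime.symm hcopa).dvd_of_dvd_mul_left this
    have hBs : B ∣ sigma 1 A * sigma 1 B := by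
      have h1 : g ∣ sigma 1 n := Nat.gcd_dvd_right _ _
      rw [hAB, isMultiplicative_sigma.map_mul_of_coprime hcop] at h1
      exact hBg.trans h1
    have hBB : B ∣ sigma 1 B := (coprime_sigma_of_gap hApos hgap).dvd_of_dvd_mul_left hBs
    refine ⟨A, B, hAB, hB, odd_of_gap hApos hgap, hBB, hgap, hPA, ?_⟩
    rw [← a_mul hBpos hcop hBB, ← hAB]
    exact ha
  · rintro ⟨A, B, hAB, hB, hodd, hBB, hgap, hPA, hPq⟩
    have hApos : 0 < A := hPA.1
    have hBpos : 0 < B := by omega
    have hcop := coprime_of_gap hApos hgap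
    refine ⟨?_, ?_⟩
    · rw [hAB, a_mul hBpos hcop hBB]
      exact hPq
    · rw [hAB]
      exact not_practical_of_gap hApos hB hgap

/-- Q1 is equivalent to the non-existence of odd multiply perfect numbers other than `1`. -/
theorem equivalence :
    (∀ n : ℕ, 0 < n → Practical (a n) → Practical n) ↔
      ∀ B : ℕ, Odd B → B ∣ sigma 1 B → B = 1 := by
  constructor
  · intro h B hodd hdvd
    have hBpos : 0 < B := hodd.pos
    have ha : a B = 1 := by
      unfold a
      rw [Nat.gcd_eq_left hdvd, Nat.div_self hBpos]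
    have hPB : Practical B := h B hBpos (by rw [ha]; exact practical_one)
    by_contra hne
    have hB1 : 1 < B := by omega
    apply not_practical_of_gap (A := 1) (B := B) one_pos hB1 ?_ (by rwa [one_mul])
    intro p hp hpB
    have h2 : p ≠ 2 := by
      rintro rfl
      exact (Nat.not_even_iff_odd.mpr hodd) (even_iff_two_dvd.mpr hpB)
    have h3 := hp.two_le
    have : sigma 1 1 = 1 := by simp
    omega
  · intro h n hn ha
    by_contra hnP
    obtain ⟨A, B, -, hB, hodd, hBB, -⟩ := (counterexample_iff n hn).mp ⟨ha, hnP⟩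
    have := h B hodd hBB
    omega

theorem result :
    (∀ n : ℕ, 0 < n →
      ((Practical (a n) ∧ ¬ Practical n) ↔
        ∃ A B : ℕ, n = A * B ∧ 1 < B ∧ Odd B ∧ B ∣ sigma 1 B ∧
          (∀ p : ℕ, p.Prime → p ∣ B → sigma 1 A + 1 < p) ∧
          Practical A ∧ Practical (A / Nat.gcd A (sigma 1 A * sigma 1 B)))) ∧
    ((∀ n : ℕ, 0 < n → Practical (a n) → Practical n) ↔
      ∀ B : ℕ, Odd B → B ∣ sigma 1 B → B = 1) :=
  ⟨counterexample_iff, equivalence⟩

end Pool.Agent.Results.MP_ff748e_nt.Reduction
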